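import Pool.Agent.Run7.h759.UM.Iface2
import Pool.Agent.Run7.h759.UM.P5
import Pool.Agent.Run7.h594.UM.P7

/-!
# UM, piece Q4 (helper232): total ramification of `p`, cyclicity and order of the layers
-/

set_option autoImplicit false

namespace Pool.Agent.Run7.h232.UM

open IntermediateField Pool.Agent.Q60.MU Pool.Agent.W5h77.MB Pool.Agent.Run7.h759.UM
open scoped Pointwise commutatorElement

/-- the cyclotomic character of level `p ^ N` -/
theorem exists_chi {p : ℕ} (hp : p.Prime) (hp2 : p ≠ 2) (N : ℕ) :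
    ∃ (z : Qb) (χ : Gal(Qb/ℚ) →* (ZMod (p ^ N))ˣ), IsPrimitiveRoot z (p ^ N) ∧
      Function.Surjective χ ∧ (∀ g ∈ χ.ker, g z = z) ∧ (∀ g : Gal(Qb/ℚ), g z = z → g ∈ χ.ker) ∧
      IsCyclic (ZMod (p ^ N))ˣ := by
  have hne : NeZero (p ^ N) := ⟨(pow_pos hp.pos N).ne'⟩
  have hne' : NeZero ((p ^ N : ℕ) : Qb) := ⟨by exact_mod_cast (pow_pos hp.pos N).ne'⟩
  have hac : IsAlgClosed Qb := AlgebraicClosure.isAlgClosed ℚ
  have hen : HasEnoughRootsOfUnity Qb (p ^ N) := inferInstance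
  obtain ⟨z, hz⟩ := hen.prim
  have hχz : ∀ g, z ^ ((hz.autToPow ℚ g : (ZMod (p ^ N))ˣ) : ZMod (p ^ N)).val = g z :=
    fun g => hz.autToPow_spec ℚ g
  have hz1 : z ^ ((1 : (ZMod (p ^ N))ˣ) : ZMod (p ^ N)).val = z := by
    rw [Units.val_one]
    rcases Nat.lt_or_ge 1 (p ^ N) with h1 | h1
    · have : Fact (1 < p ^ N) := ⟨h1⟩
      rw [ZMod.val_one, pow_one]
    · have h2 : p ^ N = 1 := by have := Nat.pos_of_ne_zero hne.out; omega
      have h3 : z = 1 := by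
        have := hz.pow_eq_one
        rwa [h2, pow_one] at this
      rw [h3, one_pow]
  refine ⟨z, hz.autToPow ℚ, hz, P5.chi_surj hz, ?_, ?_, ZMod.isCyclic_units_of_prime_pow p hp hp2 N⟩
  · intro g hg
    rw [← hχz g, MonoidHom.mem_ker.1 hg, hz1]
  · intro g hg
    rw [MonoidHom.mem_ker]
    apply Units.ext
    apply ZMod.val_injective
    apply hz.pow_inj (ZMod.val_lt _) (ZMod.val_lt _)
    rw [hχz g, hg]
    exact hz1.symm

theorem ker_le {p N : ℕ} (hp : p.Prime) {R : IntermediateField ℚ Qb}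
    (hN : R ≤ adjoin ℚ {z : Qb | z ^ p ^ N = 1}) {z : Qb} (hz : IsPrimitiveRoot z (p ^ N))
    {χ : Gal(Qb/ℚ) →* (ZMod (p ^ N))ˣ} (hχ : ∀ g ∈ χ.ker, g z = z) :
    χ.ker ≤ R.fixingSubgroup := fun g hg => P5.mem_fix hp hN hz (hχ g hg)

/-- (1) -/
theorem part1 {p : ℕ} (hp : p.Prime) (hp2 : p ≠ 2) {n : ℕ} {R : IntermediateField ℚ Qb}
    (hR : IsLayer p n R) : ∃ γ : Gal(Qb/ℚ), ∀ x : Gal(Qb/ℚ),
    ∃ i : ℕ, (γ ^ i)⁻¹ * x ∈ R.fixingSubgroup := by
  obtain ⟨-, N, hN⟩ := hR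
  have hne : NeZero (p ^ N) := ⟨(pow_pos hp.pos N).ne'⟩
  obtain ⟨z, χ, hz, hs, hk, -, hcyc⟩ := exists_chi hp hp2 N
  obtain ⟨c, hc⟩ := IsCyclic.exists_generator (α := (ZMod (p ^ N))ˣ)
  obtain ⟨γ, rfl⟩ := hs c
  refine ⟨γ, fun x => ?_⟩
  obtain ⟨i, hi⟩ := mem_powers_iff_mem_zpowers.2 (hc (χ x))
  refine ⟨i, ker_le hp hN hz hk ?_⟩
  rw [MonoidHom.mem_ker, map_mul, map_inv, map_pow]
  simp only at hi
  rw [hi, inv_mul_cancel]

/-- the absolute Galois group acts through an abelian group on the layers -/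
theorem comm_mem {p n : ℕ} (hp : p.Prime) {R : IntermediateField ℚ Qb}
    (hR : IsLayer p n R) (σ τ : Gal(Qb/ℚ)) : ⁅σ, τ⁆ ∈ R.fixingSubgroup := by
  rw [IntermediateField.mem_fixingSubgroup_iff]
  intro x hx
  have h1 : ∀ a b : Gal(Qb/ℚ), ∀ y ∈ R, a (b y) = b (a y) := fun a b y hy => layer_comm hp hR hy a b
  show σ (τ (σ⁻¹ (τ⁻¹ x))) = x
  rw [h1 σ⁻¹ τ⁻¹ x hx]
  show (σ * (τ * τ⁻¹) * σ⁻¹) x = x
  rw [mul_inv_cancel, mul_one, mul_inv_cancel]
  rfl

/-- (2) -/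
theorem part2 {p : ℕ} (hp : p.Prime) {n : ℕ} {R : IntermediateField ℚ Qb}
    (hR : IsLayer p n R) (A : ValuationSubring Qb) (hA : (p : Qb) ∈ A.nonunits) (x : Gal(Qb/ℚ)) :
    ∃ σ ∈ inertia A, σ⁻¹ * x ∈ R.fixingSubgroup := by
  have hfd := layer_fd hp hR
  have hHn := layer_normal hp hR
  obtain ⟨J, hJ⟩ : ∃ J : Subgroup Gal(Qb/ℚ), J = inertia A ⊔ R.fixingSubgroup := ⟨_, rfl⟩
  have hHJ : R.fixingSubgroup ≤ J := by rw [hJ]; exact le_sup_right
  have hJn : J.Normal := by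
    refine ⟨fun f hf g => ?_⟩
    have h1 : g * f * g⁻¹ = ⁅g, f⁆ * f := by
      rw [commutatorElement_def]
      group
    rw [h1]
    exact mul_mem (hHJ (comm_mem hp hR g f)) hf
  have hJo : IsOpen (J : Set Gal(Qb/ℚ)) :=
    Subgroup.isOpen_mono hHJ R.fixingSubgroup_isOpen
  have hfix := fix_fixed hJo
  have hJi : J.index ≠ 0 := fun h => index_ne_zero' R
    (Nat.eq_zero_of_zero_dvd (h ▸ Subgroup.index_dvd_of_le hHJ))
  have hfM : FiniteDimensional ℚ (fixedField J) := finite_fixed hJo hJi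
  have hgM : IsGalois ℚ (fixedField J) := by
    apply (InfiniteGalois.normal_iff_isGalois (fixedField J)).1
    rw [hfix]
    exact hJn
  have hin : ∀ B : ValuationSubring Qb, inertia B ≤ J := by
    intro B σ hσ
    by_cases hB : (p : Qb) ∈ B.nonunits
    · obtain ⟨g, hg⟩ := P5.conj_all hp hA hB
      have h1 := inertia_conj g B σ hσ
      rw [← hg] at h1
      have h2 : g * σ * g⁻¹ ∈ J := by
        rw [hJ]
        exact Subgroup.mem_sup_left h1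
      have h3 := hJn.conj_mem _ h2 g⁻¹
      have h4 : g⁻¹ * (g * σ * g⁻¹) * g⁻¹⁻¹ = σ := by group
      rwa [h4] at h3
    · exact hHJ (inertia_le_layer hp hR hB hσ)
  have h1 := Pool.Agent.Run7.h594.UM.finrank_eq_one (fixedField J) hfM hgM (by
    intro B σ hσ y hy
    exact (mem_fixedField_iff _ _).1 hy σ (hin B hσ))
  have h2 : J = ⊤ := by
    rw [← Subgroup.index_eq_one, ← hfix, ← finrank_eq_fixingSubgroup_index Qb (fixedField J), h1]
  have h3 : x ∈ inertia A ⊔ R.fixingSubgroup := by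
    rw [← hJ, h2]
    trivial
  obtain ⟨σ, hσ, h, hh, rfl⟩ := Subgroup.mem_sup_of_normal_right.1 h3
  exact ⟨σ, hσ, by rw [inv_mul_cancel_left]; exact hh⟩

/-- (3) -/
theorem part3 {p : ℕ} (hp : p.Prime) : ∃ A : ValuationSubring Qb, (p : Qb) ∈ A.nonunits := by
  obtain ⟨S, hS⟩ : ∃ S : Subring Qb, S = (Int.castRingHom Qb).range := ⟨_, rfl⟩
  have hI : Ideal.span {((p : ℕ) : S)} ≠ ⊤ := by
    intro h
    rw [Ideal.eq_top_iff_one, Ideal.mem_span_singleton'] at h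
    obtain ⟨⟨a, ha⟩, h1⟩ := h
    rw [hS] at ha
    obtain ⟨k, rfl⟩ := ha
    have h2 := congrArg (fun t : S => (t : Qb)) h1
    simp only [Subring.coe_mul, Subring.coe_one, Subring.coe_natCast] at h2
    have h3 : (k * p : ℤ) = 1 := by
      have h4 : ((k * p : ℤ) : Qb) = ((1 : ℤ) : Qb) := by
        push_cast
        exact h2
      exact_mod_cast h4
    have h5 := Int.isUnit_iff.1 (IsUnit.of_mul_eq_one_right _ h3)
    have := hp.two_le
    omega
  obtain ⟨w, -, hw⟩ := Ideal.image_subset_nonunits_valuationSubring (A := S) _ hI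
  refine ⟨w, hw ⟨(p : S), Ideal.mem_span_singleton_self _, ?_⟩⟩
  simp

/-- (4) -/
theorem part4 {p : ℕ} (hp : p.Prime) (hp2 : p ≠ 2) {n n' : ℕ} {R R' : IntermediateField ℚ Qb}
    (hR : IsLayer p n R) (hR' : IsLayer p n' R') (hnn : n ≤ n') : R ≤ R' := by
  have hfd := layer_fd hp hR
  have hfd' := layer_fd hp hR'
  obtain ⟨hdeg, N₁, hN₁⟩ := hR
  obtain ⟨hdeg', N₂, hN₂⟩ := hR'
  obtain ⟨N, hN⟩ : ∃ N, N = N₁ + N₂ := ⟨_, rfl⟩
  have hne : NeZero (p ^ N) := ⟨(pow_pos hp.pos N).ne'⟩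
  have hmono : ∀ a b : ℕ, a ≤ b → (adjoin ℚ {z : Qb | z ^ p ^ a = 1}) ≤
      adjoin ℚ {z : Qb | z ^ p ^ b = 1} := by
    intro a b hab
    apply adjoin.mono
    intro z hz
    obtain ⟨c, rfl⟩ := Nat.exists_eq_add_of_le hab
    show z ^ p ^ (a + c) = 1
    have hz' : z ^ p ^ a = 1 := hz
    rw [pow_add, pow_mul, hz', one_pow]
  have hRN := hN₁.trans (hmono N₁ N (by omega))
  have hRN' := hN₂.trans (hmono N₂ N (by omega))
  obtain ⟨z, χ, hz, hs, hk, -, hcyc⟩ := exists_chi hp hp2 N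
  have hk1 : χ.ker ≤ R.fixingSubgroup := ker_le hp hRN hz hk
  have hk2 : χ.ker ≤ R'.fixingSubgroup := ker_le hp hRN' hz hk
  have hi1 : (R.fixingSubgroup.map χ).index = p ^ n := by
    rw [Subgroup.index_map_eq _ hs hk1, ← hdeg, finrank_eq_fixingSubgroup_index Qb R]
  have hi2 : (R'.fixingSubgroup.map χ).index = p ^ n' := by
    rw [Subgroup.index_map_eq _ hs hk2, ← hdeg', finrank_eq_fixingSubgroup_index Qb R']
  have hle : R'.fixingSubgroup ≤ R.fixingSubgroup := by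
    intro σ hσ
    obtain ⟨y, hy⟩ := P5.cyclic_index (R'.fixingSubgroup.map χ) (x := χ σ) ⟨σ, hσ, rfl⟩
    obtain ⟨d, rfl⟩ := Nat.exists_eq_add_of_le hnn
    have h1 : χ σ ∈ R.fixingSubgroup.map χ := by
      rw [← hy, hi2, pow_add, mul_comm, pow_mul, ← hi1]
      exact Subgroup.pow_index_mem _ _
    obtain ⟨τ, hτ, hτσ⟩ := h1
    have h2 : τ⁻¹ * σ ∈ χ.ker := by
      rw [MonoidHom.mem_ker, map_mul, map_inv, hτσ, inv_mul_cancel]
    have h3 := mul_mem hτ (hk1 h2)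
    rwa [mul_inv_cancel_left] at h3
  rw [← InfiniteGalois.fixedField_fixingSubgroup R, ← InfiniteGalois.fixedField_fixingSubgroup R']
  intro x hx
  rw [mem_fixedField_iff] at hx ⊢
  exact fun f hf => hx f (hle hf)

/-- (5) -/
theorem part5 {p : ℕ} (hp : p.Prime) (hp2 : p ≠ 2) (n : ℕ) :
    ∃ R : IntermediateField ℚ Qb, IsLayer p n R := by
  have hne : NeZero (p ^ (n + 1)) := ⟨(pow_pos hp.pos (n + 1)).ne'⟩
  obtain ⟨z, χ, hz, hs, hk, hk', hcyc⟩ := exists_chi hp hp2 (n + 1)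
  obtain ⟨K, hK⟩ : ∃ K : Subgroup (ZMod (p ^ (n + 1)))ˣ, K = (powMonoidHom (p ^ n)).range := ⟨_, rfl⟩
  have hKi : K.index = p ^ n := by
    rw [hK, IsCyclic.index_powMonoidHom_range, Nat.card_eq_fintype_card, ZMod.card_units_eq_totient,
      Nat.totient_prime_pow hp (Nat.succ_pos n), Nat.succ_sub_one]
    exact Nat.gcd_eq_right (Dvd.intro _ rfl)
  obtain ⟨J, hJ⟩ : ∃ J : Subgroup Gal(Qb/ℚ), J = K.comap χ := ⟨_, rfl⟩
  have hJi : J.index = p ^ n := by rw [hJ, K.index_comap_of_surjective hs, hKi]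
  have hfz : FiniteDimensional ℚ (adjoin ℚ {z}) :=
    adjoin.finiteDimensional ((hz.isIntegral (pow_pos hp.pos (n + 1))).tower_top)
  have hle : (adjoin ℚ {z}).fixingSubgroup ≤ J := by
    intro σ hσ
    have h1 : σ z = z :=
      (IntermediateField.mem_fixingSubgroup_iff _ _).1 hσ z (mem_adjoin_simple_self ℚ z)
    rw [hJ, Subgroup.mem_comap, MonoidHom.mem_ker.1 (hk' σ h1)]
    exact one_mem _
  have hJo : IsOpen (J : Set Gal(Qb/ℚ)) :=
    Subgroup.isOpen_mono hle (adjoin ℚ {z}).fixingSubgroup_isOpen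
  have hfix := fix_fixed hJo
  refine ⟨fixedField J, ?_, n + 1, ?_⟩
  · rw [finrank_eq_fixingSubgroup_index Qb (fixedField J), hfix, hJi]
  · have h1 : fixedField J ≤ adjoin ℚ {z} := by
      rw [← InfiniteGalois.fixedField_fixingSubgroup (adjoin ℚ {z})]
      intro x hx
      rw [mem_fixedField_iff] at hx ⊢
      exact fun f hf => hx f (hle hf)
    refine h1.trans (adjoin.mono _ _ _ ?_)
    rintro x rfl
    exact hz.pow_eq_one

/-- **Q4.** -/
theorem t_Q4 : S_tot := fun _ hp hp2 =>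
  ⟨fun _ _ hR => part1 hp hp2 hR, fun _ _ hR A hA x => part2 hp hR A hA x, part3 hp,
    fun _ _ _ _ hR hR' h => part4 hp hp2 hR hR' h, fun n => part5 hp hp2 n⟩

end Pool.Agent.Run7.h232.UM
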